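import Mathlib

/-!
# The basin of `√2` for `x_{n+1} = 1 / x_{n-k} + 1 / x_{n-l}`

Every positive solution converges to `√2` iff `k + 1` and `l + 1` are divisible by different powers
of 2. Otherwise, with `d = gcd (k + 1, l + 1)`, every positive solution is asymptotic to a solution
of period `2 d` with `c_{n+d} c_n = 2`, and of the scalings of an initial vector by the symmetries
of the equation (positive sequences `w` with `w_{n+d} w_n = 1`) exactly one lies in the basin.

Proof. Reduce to `d = 1` along the residue classes modulo `d`; `a = k + 1`, `b = l + 1`. Let `S` be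
the limsup of the solution (over the even indices when `a`, `b` are odd) and `I` its liminf (over the
odd indices); then `S I = 2`. Where `X_n` is close to `S`, both `X_{n-a}` and `X_{n-b}` are close to
`I`, then their predecessors are close to `S`, and so on. If `a` and `b` have different parity, then
the term `a b` steps back is close to both `S` and `I`, so `S = I = √2`. If both are odd, this gives
arbitrarily long windows in which the terms are close to `S` and `I` alternately, and such windows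
persist. Windows also persist for nearby initial vectors, so the limit is continuous in the initial
vector; with the symmetries this makes the basin homeomorphic to `ℝ ^ (m + 1 - d)`.
-/

set_option autoImplicit false

namespace Pool.Agent.Results.MP_247194_an.BasinsByValuation

open Filter Topology

/-- the solution with initial values `v`: `sol k l v n` is `x_{n - m}` with `m = max k l` -/
noncomputable def sol (k l : ℕ) (v : Fin (max k l + 1) → ℝ) : ℕ → ℝ
  | n => if h : n < max k l + 1 then v ⟨n, h⟩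
         else 1 / sol k l v (n - 1 - k) + 1 / sol k l v (n - 1 - l)
termination_by n => n
decreasing_by all_goals omega

/-- the basin of `√2` -/
def basin (k l : ℕ) : Set (Fin (max k l + 1) → ℝ) :=
  {v | (∀ i, 0 < v i) ∧ Tendsto (sol k l v) atTop (𝓝 (√2))}

/-! ### Two real numbers with a known sum -/

lemma tendsto_of_sum_upper {F : Filter ℕ} {p q : ℕ → ℝ} {t : ℝ}
    (h : Tendsto (fun n => p n + q n) F (𝓝 (2 * t)))
    (hp : ∀ t', t < t' → ∀ᶠ n in F, p n < t') (hq : ∀ t', t < t' → ∀ᶠ n in F, q n < t') :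
    Tendsto p F (𝓝 t) := by
  rw [tendsto_order]
  refine ⟨fun a' ha' => ?_, fun b' hb' => hp b' hb'⟩
  have h1 : ∀ᶠ n in F, 2 * t - (t - a') / 2 < p n + q n :=
    (tendsto_order.1 h).1 _ (by linarith)
  have h2 := hq (t + (t - a') / 2) (by linarith)
  filter_upwards [h1, h2] with n h1 h2
  linarith

lemma tendsto_of_sum_lower {F : Filter ℕ} {p q : ℕ → ℝ} {t : ℝ}
    (h : Tendsto (fun n => p n + q n) F (𝓝 (2 * t)))
    (hp : ∀ t', t' < t → ∀ᶠ n in F, t' < p n) (hq : ∀ t', t' < t → ∀ᶠ n in F, t' < q n) :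
    Tendsto p F (𝓝 t) := by
  rw [tendsto_order]
  refine ⟨fun a' ha' => hp a' ha', fun b' hb' => ?_⟩
  have h1 : ∀ᶠ n in F, p n + q n < 2 * t + (b' - t) / 2 :=
    (tendsto_order.1 h).2 _ (by linarith)
  have h2 := hq (t - (b' - t) / 2) (by linarith)
  filter_upwards [h1, h2] with n h1 h2
  linarith

/-! ### The recursion along two filters -/

/-- `X n = 1 / X (n - a) + 1 / X (n - b)` eventually -/
structure Sys (a b : ℕ) (F0 F1 : Filter ℕ) (X : ℕ → ℝ) : Prop where
  rec0 : ∀ᶠ n in F0, X n = 1 / X (n - a) + 1 / X (n - b)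
  rec1 : ∀ᶠ n in F1, X n = 1 / X (n - a) + 1 / X (n - b)
  a01 : Tendsto (fun n => n - a) F0 F1
  b01 : Tendsto (fun n => n - b) F0 F1
  a10 : Tendsto (fun n => n - a) F1 F0
  b10 : Tendsto (fun n => n - b) F1 F0
  bdd : ∃ lo hi : ℝ, 0 < lo ∧ ∀ n, lo ≤ X n ∧ X n ≤ hi
  ne0 : F0.NeBot
  ne1 : F1.NeBot

variable {a b : ℕ} {F0 F1 : Filter ℕ} {X : ℕ → ℝ}

lemma Sys.extremes (H : Sys a b F0 F1 X) : ∃ S I : ℝ, 0 < S ∧ 0 < I ∧ S * I = 2 ∧
    (∀ y, S < y → ∀ᶠ n in F0, X n < y) ∧ (∀ y, y < S → ∃ᶠ n in F0, y < X n) ∧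
    (∀ y, y < I → ∀ᶠ n in F1, y < X n) := by
  obtain ⟨lo, hi, hlo, hb⟩ := H.bdd
  have := H.ne0
  have := H.ne1
  have hu0 : IsBoundedUnder (· ≤ ·) F0 X := isBoundedUnder_of ⟨hi, fun n => (hb n).2⟩
  have hl0 : IsBoundedUnder (· ≥ ·) F0 X := isBoundedUnder_of ⟨lo, fun n => (hb n).1⟩
  have hu1 : IsBoundedUnder (· ≤ ·) F1 X := isBoundedUnder_of ⟨hi, fun n => (hb n).2⟩
  have hl1 : IsBoundedUnder (· ≥ ·) F1 X := isBoundedUnder_of ⟨lo, fun n => (hb n).1⟩
  set S := limsup X F0 with hS
  set I := liminf X F1 with hI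
  have hS1 : ∀ y, S < y → ∀ᶠ n in F0, X n < y := fun y hy =>
    eventually_lt_of_limsup_lt hy hu0
  have hS2 : ∀ y, y < S → ∃ᶠ n in F0, y < X n := fun y hy =>
    frequently_lt_of_lt_limsup hl0.isCoboundedUnder_le hy
  have hI1 : ∀ y, y < I → ∀ᶠ n in F1, y < X n := fun y hy =>
    eventually_lt_of_lt_liminf hy hl1
  have hSlo : lo ≤ S := by
    by_contra hc
    push Not at hc
    obtain ⟨n, hn⟩ := (hS1 lo hc).exists
    linarith [(hb n).1]
  have hIlo : lo ≤ I :=
    le_liminf_of_le hu1.isCoboundedUnder_ge (Eventually.of_forall fun n => (hb n).1)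
  have hSpos : 0 < S := by linarith
  have hIpos : 0 < I := by linarith
  refine ⟨S, I, hSpos, hIpos, ?_, hS1, hS2, hI1⟩
  apply le_antisymm
  · by_contra hc
    push Not at hc
    have h1 : 2 / S < I := by rw [div_lt_iff₀ hSpos]; linarith
    obtain ⟨y, hy1, hy2⟩ := exists_between h1
    have hy0 : 0 < y := lt_trans (by positivity) hy1
    have h2 : S ≤ 2 / y := by
      refine limsup_le_of_le hl0.isCoboundedUnder_le ?_
      filter_upwards [H.rec0, H.a01.eventually (hI1 y hy2), H.b01.eventually (hI1 y hy2)]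
        with n h1 h2 h3
      rw [h1]
      have e1 : 1 / X (n - a) ≤ 1 / y := one_div_le_one_div_of_le hy0 h2.le
      have e2 : 1 / X (n - b) ≤ 1 / y := one_div_le_one_div_of_le hy0 h3.le
      calc _ ≤ 1 / y + 1 / y := add_le_add e1 e2
        _ = 2 / y := by ring
    rw [div_lt_iff₀ hSpos] at hy1
    rw [le_div_iff₀ hy0] at h2
    linarith
  · by_contra hc
    push Not at hc
    have h1 : S < 2 / I := by rw [lt_div_iff₀ hIpos]; linarith
    obtain ⟨y, hy1, hy2⟩ := exists_between h1
    have hy0 : 0 < y := lt_trans hSpos hy1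
    have h2 : 2 / y ≤ I := by
      refine le_liminf_of_le hu1.isCoboundedUnder_ge ?_
      filter_upwards [H.rec1, H.a10.eventually (hS1 y hy1), H.b10.eventually (hS1 y hy1)]
        with n h1 h2 h3
      rw [h1]
      have p2 : 0 < X (n - a) := lt_of_lt_of_le hlo (hb _).1
      have p3 : 0 < X (n - b) := lt_of_lt_of_le hlo (hb _).1
      have e1 : 1 / y ≤ 1 / X (n - a) := one_div_le_one_div_of_le p2 h2.le
      have e2 : 1 / y ≤ 1 / X (n - b) := one_div_le_one_div_of_le p3 h3.le
      calc 2 / y = 1 / y + 1 / y := by ring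
        _ ≤ _ := add_le_add e1 e2
    rw [lt_div_iff₀ hIpos] at hy2
    rw [div_le_iff₀ hy0] at h2
    linarith

/-- an ultrafilter along which `X` tends to its limsup -/
lemma exists_ultra {F : Filter ℕ} {S : ℝ} (h1 : ∀ y, S < y → ∀ᶠ n in F, X n < y)
    (h2 : ∀ y, y < S → ∃ᶠ n in F, y < X n) :
    ∃ U : Ultrafilter ℕ, (U : Filter ℕ) ≤ F ∧ Tendsto X U (𝓝 S) := by
  rw [← mapClusterPt_iff_ultrafilter, mapClusterPt_iff_frequently]
  intro s hs
  obtain ⟨ε, hε, hs'⟩ := Metric.mem_nhds_iff.1 hs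
  have := (h2 (S - ε) (by linarith)).and_eventually (h1 (S + ε) (by linarith))
  refine this.mono fun n hn => hs' ?_
  rw [Metric.mem_ball, Real.dist_eq, abs_lt]
  constructor <;> linarith [hn.1, hn.2]

/-- the two properties of the past -/
def P (X : ℕ → ℝ) (U F : Filter ℕ) (S : ℝ) (c : ℕ) : Prop :=
  Tendsto (fun n => n - c) U F ∧ Tendsto (fun n => X (n - c)) U (𝓝 S)

lemma step0 (H : Sys a b F0 F1 X) {S I : ℝ} (hI : 0 < I) (hSI : S * I = 2)
    (hI1 : ∀ y, y < I → ∀ᶠ n in F1, y < X n) {U : Filter ℕ} {c : ℕ} (h : P X U F0 S c) :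
    P X U F1 I (c + a) ∧ P X U F1 I (c + b) := by
  obtain ⟨lo, hi, hlo, hb⟩ := H.bdd
  obtain ⟨hc, hX⟩ := h
  have ta : Tendsto (fun n => n - (c + a)) U F1 := by
    simpa [Function.comp_def, Nat.sub_sub] using H.a01.comp hc
  have tb : Tendsto (fun n => n - (c + b)) U F1 := by
    simpa [Function.comp_def, Nat.sub_sub] using H.b01.comp hc
  have hrec : ∀ᶠ n in U, X (n - c) = 1 / X (n - (c + a)) + 1 / X (n - (c + b)) := by
    simpa [Nat.sub_sub] using hc.eventually H.rec0
  have hsum : Tendsto (fun n => 1 / X (n - (c + a)) + 1 / X (n - (c + b))) U (𝓝 (2 * (1 / I))) := by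
    have : 2 * (1 / I) = S := by field_simp; linarith
    rw [this]
    exact hX.congr' hrec
  have up : ∀ (e : ℕ), Tendsto (fun n => n - e) U F1 →
      ∀ t', 1 / I < t' → ∀ᶠ n in U, 1 / X (n - e) < t' := by
    intro e he t' ht'
    have ht0 : 0 < t' := lt_trans (by positivity) ht'
    have h1 : 1 / t' < I := by
      rw [div_lt_iff₀ hI] at ht'
      rw [div_lt_iff₀ ht0]
      linarith
    filter_upwards [he.eventually (hI1 _ h1)] with n hn
    have hp : 0 < X (n - e) := lt_of_lt_of_le hlo (hb _).1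
    rw [div_lt_iff₀ ht0] at hn
    rw [div_lt_iff₀ hp]
    linarith
  have fin : ∀ e : ℕ, Tendsto (fun n => 1 / X (n - e)) U (𝓝 (1 / I)) →
      Tendsto (fun n => X (n - e)) U (𝓝 I) := by
    intro e he
    have := he.inv₀ (by positivity)
    simpa using this
  refine ⟨⟨ta, fin _ ?_⟩, ⟨tb, fin _ ?_⟩⟩
  · exact tendsto_of_sum_upper hsum (up _ ta) (up _ tb)
  · exact tendsto_of_sum_upper (by simpa only [add_comm] using hsum) (up _ tb) (up _ ta)

lemma step1 (H : Sys a b F0 F1 X) {S I : ℝ} (hS : 0 < S) (hSI : S * I = 2)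
    (hS1 : ∀ y, S < y → ∀ᶠ n in F0, X n < y) {U : Filter ℕ} {c : ℕ} (h : P X U F1 I c) :
    P X U F0 S (c + a) ∧ P X U F0 S (c + b) := by
  obtain ⟨lo, hi, hlo, hb⟩ := H.bdd
  obtain ⟨hc, hX⟩ := h
  have ta : Tendsto (fun n => n - (c + a)) U F0 := by
    simpa [Function.comp_def, Nat.sub_sub] using H.a10.comp hc
  have tb : Tendsto (fun n => n - (c + b)) U F0 := by
    simpa [Function.comp_def, Nat.sub_sub] using H.b10.comp hc
  have hrec : ∀ᶠ n in U, X (n - c) = 1 / X (n - (c + a)) + 1 / X (n - (c + b)) := by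
    simpa [Nat.sub_sub] using hc.eventually H.rec1
  have hsum : Tendsto (fun n => 1 / X (n - (c + a)) + 1 / X (n - (c + b))) U (𝓝 (2 * (1 / S))) := by
    have : 2 * (1 / S) = I := by field_simp; linarith
    rw [this]
    exact hX.congr' hrec
  have up : ∀ (e : ℕ), Tendsto (fun n => n - e) U F0 →
      ∀ t', t' < 1 / S → ∀ᶠ n in U, t' < 1 / X (n - e) := by
    intro e he t' ht'
    rcases le_or_gt t' 0 with ht0 | ht0
    · refine Eventually.of_forall fun n => lt_of_le_of_lt ht0 ?_
      have hp : 0 < X (n - e) := lt_of_lt_of_le hlo (hb _).1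
      positivity
    have h1 : S < 1 / t' := by
      rw [lt_div_iff₀ hS] at ht'
      rw [lt_div_iff₀ ht0]
      linarith
    filter_upwards [he.eventually (hS1 _ h1)] with n hn
    have hp : 0 < X (n - e) := lt_of_lt_of_le hlo (hb _).1
    rw [lt_div_iff₀ ht0] at hn
    rw [lt_div_iff₀ hp]
    linarith
  have fin : ∀ e : ℕ, Tendsto (fun n => 1 / X (n - e)) U (𝓝 (1 / S)) →
      Tendsto (fun n => X (n - e)) U (𝓝 S) := by
    intro e he
    have := he.inv₀ (by positivity)
    simpa using this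
  refine ⟨⟨ta, fin _ ?_⟩, ⟨tb, fin _ ?_⟩⟩
  · exact tendsto_of_sum_lower hsum (up _ ta) (up _ tb)
  · exact tendsto_of_sum_lower (by simpa only [add_comm] using hsum) (up _ tb) (up _ ta)

/-- the past of a point where `X` is close to its limsup -/
lemma Sys.past (H : Sys a b F0 F1 X) : ∃ S I : ℝ, 0 < S ∧ 0 < I ∧ S * I = 2 ∧
    (∀ y, S < y → ∀ᶠ n in F0, X n < y) ∧ (∀ y, y < I → ∀ᶠ n in F1, y < X n) ∧
    ∃ U : Ultrafilter ℕ, (U : Filter ℕ) ≤ F0 ∧ ∀ i j : ℕ,
      (Even (i + j) → P X U F0 S (i * a + j * b)) ∧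
      (¬ Even (i + j) → P X U F1 I (i * a + j * b)) := by
  obtain ⟨S, I, hS, hI, hSI, hS1, hS2, hI1⟩ := H.extremes
  obtain ⟨U, hU, hX⟩ := exists_ultra hS1 hS2
  refine ⟨S, I, hS, hI, hSI, hS1, hI1, U, hU, ?_⟩
  have base : P X U F0 S 0 := ⟨by simp only [Nat.sub_zero]; exact hU, by simpa using hX⟩
  have hi : ∀ i : ℕ, (Even i → P X U F0 S (i * a)) ∧ (¬ Even i → P X U F1 I (i * a)) := by
    intro i
    induction i with
    | zero => exact ⟨fun _ => by simpa using base, fun h => absurd (by simp) h⟩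
    | succ i ih =>
      rw [Nat.even_add_one, not_not]
      have e : (i + 1) * a = i * a + a := by ring
      rw [e]
      exact ⟨fun h => (step1 H hS hSI hS1 (ih.2 h)).1,
        fun h => (step0 H hI hSI hI1 (ih.1 h)).1⟩
  intro i j
  induction j with
  | zero => simpa using hi i
  | succ j ih =>
    rw [← add_assoc, Nat.even_add_one, not_not]
    have e : i * a + (j + 1) * b = i * a + j * b + b := by ring
    rw [e]
    exact ⟨fun h => (step1 H hS hSI hS1 (ih.2 h)).2,
      fun h => (step0 H hI hSI hI1 (ih.1 h)).2⟩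

/-! ### The two cases for coprime `a`, `b` -/

/-- a positive bounded solution -/
structure Good (a b : ℕ) (X : ℕ → ℝ) : Prop where
  ha : 1 ≤ a
  hb : 1 ≤ b
  bdd : ∃ lo hi : ℝ, 0 < lo ∧ ∀ n, lo ≤ X n ∧ X n ≤ hi
  recur : ∀ n, a ≤ n → b ≤ n → X n = 1 / X (n - a) + 1 / X (n - b)

lemma Good.core_one {a b : ℕ} {X : ℕ → ℝ} (G : Good a b X) {i j : ℕ} (e : i * a = j * b)
    (hi : Even i) (hj : ¬ Even j) : Tendsto X atTop (𝓝 (√2)) := by
  have hrec : ∀ᶠ n in atTop, X n = 1 / X (n - a) + 1 / X (n - b) := by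
    filter_upwards [eventually_ge_atTop a, eventually_ge_atTop b] with n h1 h2
    exact G.recur n h1 h2
  have H : Sys a b atTop atTop X :=
    { rec0 := hrec
      rec1 := hrec
      a01 := tendsto_sub_atTop_nat a
      b01 := tendsto_sub_atTop_nat b
      a10 := tendsto_sub_atTop_nat a
      b10 := tendsto_sub_atTop_nat b
      bdd := G.bdd
      ne0 := inferInstance
      ne1 := inferInstance }
  obtain ⟨S, I, hS, hI, hSI, hS1, hI1, U, hU, hP⟩ := H.past
  have h1 := ((hP i 0).1 (by simpa using hi)).2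
  have h2 := ((hP 0 j).2 (by simpa using hj)).2
  simp only [zero_mul, add_zero, zero_add] at h1 h2
  rw [e] at h1
  have hEq : S = I := tendsto_nhds_unique h1 h2
  subst hEq
  have hS2 : S = √2 := by
    rw [eq_comm, Real.sqrt_eq_iff_mul_self_eq (by norm_num) hS.le]
    exact hSI.symm
  rw [← hS2]
  exact tendsto_order.2 ⟨hI1, hS1⟩

lemma Good.invariant {a b : ℕ} {X : ℕ → ℝ} (G : Good a b X) (hposX : ∀ n, 0 < X n)
    (oa : ¬ Even a) (ob : ¬ Even b) {p q : ℝ} (hp : 0 < p) (hq : 0 < q) {N : ℕ}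
    (hN : ∀ m, N ≤ m → m < N + (a + b) →
      (Even m → p < X m ∧ X m < q) ∧ (¬ Even m → 2 / q < X m ∧ X m < 2 / p)) :
    ∀ m, N ≤ m →
      (Even m → p < X m ∧ X m < q) ∧ (¬ Even m → 2 / q < X m ∧ X m < 2 / p) := by
  intro m
  induction m using Nat.strong_induction_on with
  | _ m ih =>
    intro hm
    by_cases hmn : m < N + (a + b)
    · exact hN m hm hmn
    · push Not at hmn
      have ha1 := G.ha
      have hb1 := G.hb
      have ga := ih (m - a) (by omega) (by omega)
      have gb := ih (m - b) (by omega) (by omega)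
      have pa := hposX (m - a)
      have pb := hposX (m - b)
      have hr := G.recur m (by omega) (by omega)
      have ea : Even (m - a) ↔ ¬ Even m := by
        rw [Nat.even_sub (by omega)]; tauto
      have eb : Even (m - b) ↔ ¬ Even m := by
        rw [Nat.even_sub (by omega)]; tauto
      rw [ea] at ga
      rw [eb] at gb
      by_cases hev : Even m
      · refine ⟨fun _ => ?_, fun h => absurd hev h⟩
        obtain ⟨a1, a2⟩ := ga.2 (fun h => h hev)
        obtain ⟨b1, b2⟩ := gb.2 (fun h => h hev)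
        rw [hr]
        have x1 : p / 2 < 1 / X (m - a) := by
          rw [lt_div_iff₀ pa]; rw [lt_div_iff₀ hp] at a2; linarith
        have x2 : p / 2 < 1 / X (m - b) := by
          rw [lt_div_iff₀ pb]; rw [lt_div_iff₀ hp] at b2; linarith
        have x3 : 1 / X (m - a) < q / 2 := by
          rw [div_lt_iff₀ pa]; rw [div_lt_iff₀ hq] at a1; linarith
        have x4 : 1 / X (m - b) < q / 2 := by
          rw [div_lt_iff₀ pb]; rw [div_lt_iff₀ hq] at b1; linarith
        constructor <;> linarith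
      · refine ⟨fun h => absurd h hev, fun _ => ?_⟩
        obtain ⟨a1, a2⟩ := ga.1 hev
        obtain ⟨b1, b2⟩ := gb.1 hev
        rw [hr]
        have x1 : 1 / q < 1 / X (m - a) := one_div_lt_one_div_of_lt pa a2
        have x2 : 1 / q < 1 / X (m - b) := one_div_lt_one_div_of_lt pb b2
        have x3 : 1 / X (m - a) < 1 / p := one_div_lt_one_div_of_lt hp a1
        have x4 : 1 / X (m - b) < 1 / p := one_div_lt_one_div_of_lt hp b1
        have y1 : 2 / q = 1 / q + 1 / q := by ring
        have y2 : 2 / p = 1 / p + 1 / p := by ring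
        rw [y1, y2]
        constructor <;> linarith

lemma Good.core_two {a b : ℕ} {X : ℕ → ℝ} (G : Good a b X) (hab : Nat.Coprime a b)
    (oa : ¬ Even a) (ob : ¬ Even b) :
    ∃ L : ℝ, 0 < L ∧ Tendsto X (atTop ⊓ 𝓟 {n | Even n}) (𝓝 L) ∧
      Tendsto X (atTop ⊓ 𝓟 {n | ¬ Even n}) (𝓝 (2 / L)) := by
  have hrec : ∀ᶠ n in atTop, X n = 1 / X (n - a) + 1 / X (n - b) := by
    filter_upwards [eventually_ge_atTop a, eventually_ge_atTop b] with n h1 h2
    exact G.recur n h1 h2
  have t01 : ∀ e : ℕ, ¬ Even e → Tendsto (fun n => n - e) (atTop ⊓ 𝓟 {n | Even n})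
      (atTop ⊓ 𝓟 {n | ¬ Even n}) := by
    intro e he
    refine tendsto_inf.2 ⟨(tendsto_sub_atTop_nat e).mono_left inf_le_left,
      tendsto_principal.2 ?_⟩
    rw [eventually_inf_principal]
    filter_upwards [eventually_ge_atTop e] with n hn hev
    change Even n at hev
    rw [Nat.even_sub hn]
    tauto
  have t10 : ∀ e : ℕ, ¬ Even e → Tendsto (fun n => n - e) (atTop ⊓ 𝓟 {n | ¬ Even n})
      (atTop ⊓ 𝓟 {n | Even n}) := by
    intro e he
    refine tendsto_inf.2 ⟨(tendsto_sub_atTop_nat e).mono_left inf_le_left,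
      tendsto_principal.2 ?_⟩
    rw [eventually_inf_principal]
    filter_upwards [eventually_ge_atTop e] with n hn hev
    change ¬ Even n at hev
    rw [Nat.even_sub hn]
    tauto
  have H : Sys a b (atTop ⊓ 𝓟 {n | Even n}) (atTop ⊓ 𝓟 {n | ¬ Even n}) X :=
    { rec0 := hrec.filter_mono inf_le_left
      rec1 := hrec.filter_mono inf_le_left
      a01 := t01 a oa
      b01 := t01 b ob
      a10 := t10 a oa
      b10 := t10 b ob
      bdd := G.bdd
      ne0 := frequently_mem_iff_neBot.1 Nat.frequently_even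
      ne1 := frequently_mem_iff_neBot.1 (by simpa [Nat.not_even_iff_odd] using Nat.frequently_odd) }
  obtain ⟨S, I, hS, hI, hSI, hS1, hI1, U, hU, hP⟩ := H.past
  have hIS : I = 2 / S := by field_simp; linarith
  obtain ⟨lo, hi, hlo, hbd⟩ := G.bdd
  have hposX : ∀ n, 0 < X n := fun n => lt_of_lt_of_le hlo (hbd n).1
  have := H.ne0
  -- the window
  have hwin : ∀ c, a.pred * b.pred ≤ c → (Even c → Tendsto (fun n => X (n - c)) U (𝓝 S)) ∧
      (¬ Even c → Tendsto (fun n => X (n - c)) U (𝓝 I)) := by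
    intro c hc
    obtain ⟨i, j, hij⟩ := Nat.exists_add_mul_eq_of_gcd_dvd_of_mul_pred_le a b c
      (by rw [hab.gcd_eq_one]; exact one_dvd c) hc
    have hpar : Even c ↔ Even (i + j) := by
      rw [← hij, Nat.even_add, Nat.even_add, Nat.even_mul, Nat.even_mul]
      tauto
    have := hP i j
    rw [hij] at this
    rw [hpar]
    exact ⟨fun h => (this.1 h).2, fun h => (this.2 h).2⟩
  have key : ∀ p q : ℝ, 0 < p → p < S → S < q → ∃ N, ∀ m, N ≤ m →
      (Even m → p < X m ∧ X m < q) ∧ (¬ Even m → 2 / q < X m ∧ X m < 2 / p) := by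
    intro p q hp hpS hSq
    have hq : 0 < q := hS.trans hSq
    set K := a.pred * b.pred with hK
    have h1 : ∀ᶠ n in (U : Filter ℕ), ∀ t ∈ Finset.range (a + b),
        (Even (K + t) → p < X (n - (K + t)) ∧ X (n - (K + t)) < q) ∧
        (¬ Even (K + t) → 2 / q < X (n - (K + t)) ∧ X (n - (K + t)) < 2 / p) := by
      rw [Filter.eventually_all_finset]
      intro t _
      by_cases ht : Even (K + t)
      · have := (hwin (K + t) (by omega)).1 ht
        filter_upwards [(tendsto_order.1 this).1 p hpS, (tendsto_order.1 this).2 q hSq]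
          with n h1 h2
        exact ⟨fun _ => ⟨h1, h2⟩, fun h => absurd ht h⟩
      · have := (hwin (K + t) (by omega)).2 ht
        have e1 : 2 / q < I := by
          rw [hIS]; exact div_lt_div_of_pos_left (by norm_num) hS hSq
        have e2 : I < 2 / p := by
          rw [hIS]; exact div_lt_div_of_pos_left (by norm_num) hp hpS
        filter_upwards [(tendsto_order.1 this).1 _ e1, (tendsto_order.1 this).2 _ e2]
          with n h1 h2
        exact ⟨fun h => absurd h ht, fun _ => ⟨h1, h2⟩⟩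
    have h2 : ∀ᶠ n in (U : Filter ℕ), Even n ∧ K + 2 * (a + b) ≤ n := by
      refine hU ?_
      have : ∀ᶠ n in atTop ⊓ 𝓟 {n : ℕ | Even n}, Even n ∧ K + 2 * (a + b) ≤ n := by
        rw [eventually_inf_principal]
        filter_upwards [eventually_ge_atTop (K + 2 * (a + b))] with n h1 h2
        exact ⟨h2, h1⟩
      exact this
    obtain ⟨n, hn1, hn2, hn3⟩ := (h1.and h2).exists
    refine ⟨n - K - (a + b) + 1, G.invariant hposX oa ob hp hq ?_⟩
    intro m hm1 hm2
    have ht : n - K - m ∈ Finset.range (a + b) := by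
      rw [Finset.mem_range]; have := G.ha; omega
    have h := hn1 _ ht
    have e1 : K + (n - K - m) = n - m := by omega
    have e2 : n - (n - m) = m := by omega
    rw [e1, e2] at h
    have e3 : Even (n - m) ↔ Even m := by
      rw [Nat.even_sub (by omega)]; tauto
    rw [e3] at h
    exact h
  have hEvenLim : Tendsto X (atTop ⊓ 𝓟 {n | Even n}) (𝓝 S) := by
    refine tendsto_order.2 ⟨fun p' hp' => ?_, fun q hq => ?_⟩
    · obtain ⟨N, hN⟩ := key (max p' (S / 2)) (S + 1) (lt_max_of_lt_right (by positivity))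
        (max_lt hp' (by linarith)) (by linarith)
      rw [eventually_inf_principal]
      filter_upwards [eventually_ge_atTop N] with n hn hev
      exact lt_of_le_of_lt (le_max_left _ _) ((hN n hn).1 hev).1
    · obtain ⟨N, hN⟩ := key (S / 2) q (by positivity) (by linarith) hq
      rw [eventually_inf_principal]
      filter_upwards [eventually_ge_atTop N] with n hn hev
      exact ((hN n hn).1 hev).2
  refine ⟨S, hS, hEvenLim, ?_⟩
  have h1 := (hEvenLim.comp (t10 a oa)).inv₀ hS.ne'
  have h2 := (hEvenLim.comp (t10 b ob)).inv₀ hS.ne'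
  have h3 := h1.add h2
  have e : S⁻¹ + S⁻¹ = 2 / S := by ring
  rw [e] at h3
  refine h3.congr' ?_
  filter_upwards [hrec.filter_mono inf_le_left] with n hn
  simp only [Function.comp_apply]
  rw [hn, one_div, one_div]

lemma Good.symm {a b : ℕ} {X : ℕ → ℝ} (G : Good a b X) : Good b a X :=
  ⟨G.hb, G.ha, G.bdd, fun n h1 h2 => by rw [G.recur n h2 h1, add_comm]⟩

/-- sequences with the same limit along each residue class -/
lemma glue {Z : ℕ → ℝ} {D : ℕ} (hD : 0 < D) {t : ℝ}
    (h : ∀ r < D, Tendsto (fun q => Z (r + D * q)) atTop (𝓝 t)) : Tendsto Z atTop (𝓝 t) := by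
  rw [Metric.tendsto_nhds]
  intro ε hε
  have h1 : ∀ᶠ q in atTop, ∀ r ∈ Finset.range D, dist (Z (r + D * q)) t < ε := by
    rw [Filter.eventually_all_finset]
    intro r hr
    exact (Metric.tendsto_nhds.1 (h r (Finset.mem_range.1 hr))) ε hε
  obtain ⟨Q, hQ⟩ := eventually_atTop.1 h1
  filter_upwards [eventually_ge_atTop (Q * D)] with n hn
  have h2 := hQ (n / D) ((Nat.le_div_iff_mul_le hD).2 hn) (n % D)
    (Finset.mem_range.2 (Nat.mod_lt n hD))
  rwa [Nat.mod_add_div] at h2

lemma parity_iff {d a1 b1 : ℕ} (hd : 0 < d) (ha : 0 < a1) (hb : 0 < b1)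
    (cop : Nat.Coprime a1 b1) :
    padicValNat 2 (a1 * d) = padicValNat 2 (b1 * d) ↔ (¬ Even a1 ∧ ¬ Even b1) := by
  rw [padicValNat.mul ha.ne' hd.ne', padicValNat.mul hb.ne' hd.ne', add_left_inj]
  have key : ∀ x : ℕ, 0 < x → (padicValNat 2 x = 0 ↔ ¬ Even x) := by
    intro x hx
    rw [padicValNat.eq_zero_iff, even_iff_two_dvd]
    constructor
    · rintro (h | h | h)
      · omega
      · omega
      · exact h
    · intro h
      exact Or.inr (Or.inr h)
  constructor
  · intro h
    by_cases ea : Even a1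
    · have h1 : padicValNat 2 a1 ≠ 0 := fun h0 => (key a1 ha).1 h0 ea
      have h2 : Even b1 := by
        by_contra hb1
        exact h1 (h.trans ((key b1 hb).2 hb1))
      exact absurd (Nat.dvd_gcd (even_iff_two_dvd.1 ea) (even_iff_two_dvd.1 h2))
        (by rw [cop.gcd_eq_one]; omega)
    · refine ⟨ea, ?_⟩
      have h1 := (key a1 ha).2 ea
      rw [h] at h1
      exact (key b1 hb).1 h1
  · rintro ⟨h1, h2⟩
    rw [(key a1 ha).2 h1, (key b1 hb).2 h2]

/-! ### Solutions -/

section sol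

variable {k l : ℕ}

lemma sol_lt (v : Fin (max k l + 1) → ℝ) {n : ℕ} (h : n < max k l + 1) :
    sol k l v n = v ⟨n, h⟩ := by
  rw [sol, dif_pos h]

lemma sol_ge (v : Fin (max k l + 1) → ℝ) {n : ℕ} (h1 : k + 1 ≤ n) (h2 : l + 1 ≤ n) :
    sol k l v n = 1 / sol k l v (n - (k + 1)) + 1 / sol k l v (n - (l + 1)) := by
  rw [sol, dif_neg (by omega), Nat.sub_sub, Nat.sub_sub, add_comm 1 k, add_comm 1 l]

lemma sol_bdd {v : Fin (max k l + 1) → ℝ} (hv : ∀ i, 0 < v i) :
    ∃ lo hi : ℝ, 0 < lo ∧ ∀ n, lo ≤ sol k l v n ∧ sol k l v n ≤ hi := by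
  obtain ⟨i0, h0⟩ := Finite.exists_min (fun i => min (v i) (2 / v i))
  set lo := min (v i0) (2 / v i0) with hlo
  have hp : 0 < lo := lt_min (hv i0) (div_pos two_pos (hv i0))
  refine ⟨lo, 2 / lo, hp, fun n => ?_⟩
  induction n using Nat.strong_induction_on with
  | _ n ih =>
    by_cases h : n < max k l + 1
    · rw [sol_lt v h]
      have h1 := h0 ⟨n, h⟩
      have h2 : lo ≤ v ⟨n, h⟩ := h1.trans (min_le_left _ _)
      have h3 : lo ≤ 2 / v ⟨n, h⟩ := h1.trans (min_le_right _ _)
      refine ⟨h2, ?_⟩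
      rw [le_div_iff₀ (hv _)] at h3
      rw [le_div_iff₀ hp]
      linarith
    · rw [sol_ge v (by omega) (by omega)]
      obtain ⟨a1, a2⟩ := ih (n - (k + 1)) (by omega)
      obtain ⟨b1, b2⟩ := ih (n - (l + 1)) (by omega)
      have pa := lt_of_lt_of_le hp a1
      have pb := lt_of_lt_of_le hp b1
      have x1 : 1 / sol k l v (n - (k + 1)) ≤ 1 / lo := one_div_le_one_div_of_le hp a1
      have x2 : 1 / sol k l v (n - (l + 1)) ≤ 1 / lo := one_div_le_one_div_of_le hp b1
      have x3 : lo / 2 ≤ 1 / sol k l v (n - (k + 1)) := by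
        rw [le_div_iff₀ hp] at a2
        rw [le_div_iff₀ pa]
        linarith
      have x4 : lo / 2 ≤ 1 / sol k l v (n - (l + 1)) := by
        rw [le_div_iff₀ hp] at b2
        rw [le_div_iff₀ pb]
        linarith
      have y : 2 / lo = 1 / lo + 1 / lo := by ring
      rw [y]
      constructor <;> linarith

lemma sol_pos {v : Fin (max k l + 1) → ℝ} (hv : ∀ i, 0 < v i) (n : ℕ) : 0 < sol k l v n := by
  obtain ⟨lo, hi, h1, h2⟩ := sol_bdd hv
  exact lt_of_lt_of_le h1 (h2 n).1

/-- the subsequence along a residue class modulo `d` -/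
lemma sol_good {v : Fin (max k l + 1) → ℝ} (hv : ∀ i, 0 < v i) {d a1 b1 : ℕ}
    (ha : k + 1 = a1 * d) (hb : l + 1 = b1 * d) (r : ℕ) :
    Good a1 b1 (fun q => sol k l v (r + d * q)) := by
  obtain ⟨lo, hi, h1, h2⟩ := sol_bdd hv
  have ha1 : 1 ≤ a1 := by
    rcases Nat.eq_zero_or_pos a1 with h | h
    · rw [h] at ha; omega
    · exact h
  have hb1 : 1 ≤ b1 := by
    rcases Nat.eq_zero_or_pos b1 with h | h
    · rw [h] at hb; omega
    · exact h
  refine ⟨ha1, hb1, ⟨lo, hi, h1, fun n => h2 _⟩, fun n hn1 hn2 => ?_⟩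
  have e1 : a1 * d ≤ d * n := by rw [mul_comm]; exact Nat.mul_le_mul_left d hn1
  have e2 : b1 * d ≤ d * n := by rw [mul_comm]; exact Nat.mul_le_mul_left d hn2
  have f1 : r + d * (n - a1) = r + d * n - (k + 1) := by
    rw [Nat.mul_sub, ha, mul_comm a1 d] at *; omega
  have f2 : r + d * (n - b1) = r + d * n - (l + 1) := by
    rw [Nat.mul_sub, hb, mul_comm b1 d] at *; omega
  change sol k l v (r + d * n) =
    1 / sol k l v (r + d * (n - a1)) + 1 / sol k l v (r + d * (n - b1))
  rw [f1, f2]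
  exact sol_ge v (by omega) (by omega)

/-- different valuations: every solution tends to `√2` -/
lemma tendsto_of_ne {v : Fin (max k l + 1) → ℝ} (hv : ∀ i, 0 < v i) {d a1 b1 : ℕ}
    (hd : 0 < d) (ha : k + 1 = a1 * d) (hb : l + 1 = b1 * d) (cop : Nat.Coprime a1 b1)
    (hpar : ¬ (¬ Even a1 ∧ ¬ Even b1)) : Tendsto (sol k l v) atTop (𝓝 (√2)) := by
  refine glue hd fun r _ => ?_
  have G := sol_good hv ha hb r
  by_cases ea : Even a1
  · have eb : ¬ Even b1 := fun eb => absurd
      (Nat.dvd_gcd (even_iff_two_dvd.1 ea) (even_iff_two_dvd.1 eb))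
      (by rw [cop.gcd_eq_one]; omega)
    exact G.symm.core_one (mul_comm a1 b1) ea eb
  · have eb : Even b1 := by tauto
    exact G.core_one (mul_comm b1 a1) eb ea

/-- equal valuations: every solution is asymptotic to a solution of period `2 d` -/
lemma exists_limit {v : Fin (max k l + 1) → ℝ} (hv : ∀ i, 0 < v i) {d a1 b1 : ℕ}
    (hd : 0 < d) (ha : k + 1 = a1 * d) (hb : l + 1 = b1 * d) (cop : Nat.Coprime a1 b1)
    (ea : ¬ Even a1) (eb : ¬ Even b1) :
    ∃ c : ℕ → ℝ, (∀ n, 0 < c n ∧ c (n + d) * c n = 2) ∧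
      Tendsto (fun n => sol k l v n - c n) atTop (𝓝 0) := by
  choose L hL1 hL2 hL3 using fun r => (sol_good hv ha hb r).core_two cop ea eb
  have hdiv : ∀ n, (n + d) / d = n / d + 1 := fun n => Nat.add_div_right n hd
  refine ⟨fun n => if Even (n / d) then L (n % d) else 2 / L (n % d), fun n => ⟨?_, ?_⟩, ?_⟩
  · have := hL1 (n % d)
    change 0 < if Even (n / d) then L (n % d) else 2 / L (n % d)
    split_ifs <;> positivity
  · have := hL1 (n % d)
    simp only [hdiv, Nat.add_mod_right, Nat.even_add_one]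
    by_cases h : Even (n / d)
    · simp only [h, not_true_eq_false, if_true, if_false]
      field_simp
    · simp only [h, not_false_eq_true, if_true, if_false]
      field_simp
  · refine glue hd fun r hr => ?_
    have e1 : ∀ q, (r + d * q) / d = q := fun q => by
      rw [Nat.add_mul_div_left _ _ hd, Nat.div_eq_of_lt hr, zero_add]
    have e2 : ∀ q, (r + d * q) % d = r := fun q => by
      rw [Nat.add_mul_mod_self_left, Nat.mod_eq_of_lt hr]
    simp only [e1, e2]
    rw [Metric.tendsto_nhds]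
    intro ε hε
    have h1 := (Metric.tendsto_nhds.1 (hL2 r)) ε hε
    have h2 := (Metric.tendsto_nhds.1 (hL3 r)) ε hε
    rw [eventually_inf_principal] at h1 h2
    filter_upwards [h1, h2] with q h1 h2
    by_cases h : Even q
    · simp only [h, if_true]
      have := h1 h
      rw [Real.dist_eq] at this ⊢
      simpa using this
    · simp only [h, if_false]
      have := h2 h
      rw [Real.dist_eq] at this ⊢
      simpa using this

end sol

/-! ### Symmetries -/

lemma per_two {w : ℕ → ℝ} {d : ℕ} {t : ℝ} (ht : t ≠ 0) (hw : ∀ n, w (n + d) * w n = t) (n q : ℕ) :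
    w (n + 2 * d * q) = w n := by
  induction q with
  | zero => simp
  | succ q ih =>
    rw [← ih]
    have h1 := hw (n + 2 * d * q)
    have h2 := hw (n + 2 * d * q + d)
    have e : n + 2 * d * (q + 1) = n + 2 * d * q + d + d := by ring
    rw [e]
    have h3 : w (n + 2 * d * q + d) ≠ 0 := by
      intro h0
      rw [h0, zero_mul] at h1
      exact ht h1.symm
    have h4 : w (n + 2 * d * q + d + d) * w (n + 2 * d * q + d) =
        w (n + 2 * d * q) * w (n + 2 * d * q + d) := by
      rw [h2, ← h1]; ring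
    exact mul_right_cancel₀ h3 h4

lemma mul_shift {w : ℕ → ℝ} {d a1 : ℕ} (hw : ∀ n, w (n + d) * w n = 1) (ea : ¬ Even a1)
    {n : ℕ} (hn : a1 * d ≤ n) : w n * w (n - a1 * d) = 1 := by
  rw [Nat.not_even_iff_odd] at ea
  obtain ⟨t, rfl⟩ := ea
  have h1 := hw (n - (2 * t + 1) * d)
  have h2 := per_two one_ne_zero hw (n - (2 * t + 1) * d + d) t
  have e : n - (2 * t + 1) * d + d + 2 * d * t = n := by
    have : (2 * t + 1) * d = d + 2 * d * t := by ring
    rw [this] at hn ⊢
    omega
  rw [e] at h2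
  rw [h2]
  exact h1

lemma sol_scale {k l : ℕ} {v : Fin (max k l + 1) → ℝ} {d a1 b1 : ℕ}
    (ha : k + 1 = a1 * d) (hb : l + 1 = b1 * d) (ea : ¬ Even a1) (eb : ¬ Even b1) {w : ℕ → ℝ}
    (hw : ∀ n, 0 < w n ∧ w (n + d) * w n = 1) (n : ℕ) :
    sol k l (fun i => w i * v i) n = w n * sol k l v n := by
  induction n using Nat.strong_induction_on with
  | _ n ih =>
    by_cases h : n < max k l + 1
    · rw [sol_lt _ h, sol_lt _ h]
    · rw [sol_ge _ (by omega) (by omega), sol_ge v (by omega) (by omega),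
        ih (n - (k + 1)) (by omega), ih (n - (l + 1)) (by omega)]
      have h1 : w n * w (n - (k + 1)) = 1 := by
        rw [ha]; exact mul_shift (fun n => (hw n).2) ea (by rw [← ha]; omega)
      have h2 : w n * w (n - (l + 1)) = 1 := by
        rw [hb]; exact mul_shift (fun n => (hw n).2) eb (by rw [← hb]; omega)
      have i1 : (w (n - (k + 1)))⁻¹ = w n := inv_eq_of_mul_eq_one_left h1
      have i2 : (w (n - (l + 1)))⁻¹ = w n := inv_eq_of_mul_eq_one_left h2
      rw [one_div, one_div, mul_inv, mul_inv, i1, i2, one_div, one_div]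
      ring

/-- the scaling by `w` lies in the basin iff `w c = √2` -/
lemma scale_mem_iff {k l : ℕ} {v : Fin (max k l + 1) → ℝ} (hv : ∀ i, 0 < v i) {d a1 b1 : ℕ}
    (hd : 0 < d) (ha : k + 1 = a1 * d) (hb : l + 1 = b1 * d) (ea : ¬ Even a1) (eb : ¬ Even b1)
    {w c : ℕ → ℝ} (hw : ∀ n, 0 < w n ∧ w (n + d) * w n = 1)
    (hc : ∀ n, 0 < c n ∧ c (n + d) * c n = 2)
    (hlim : Tendsto (fun n => sol k l v n - c n) atTop (𝓝 0)) :
    (fun i : Fin (max k l + 1) => w i * v i) ∈ basin k l ↔ ∀ n, w n * c n = √2 := by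
  have h2d : 0 < 2 * d := by omega
  have pw := per_two (w := w) one_ne_zero (fun n => (hw n).2)
  have pc := per_two (w := c) two_ne_zero (fun n => (hc n).2)
  have hsub : ∀ r : ℕ, Tendsto (fun q : ℕ => r + 2 * d * q) atTop atTop := by
    intro r
    refine tendsto_atTop_mono (fun q => ?_) tendsto_id
    have : 1 * q ≤ 2 * d * q := Nat.mul_le_mul_right q h2d
    simp only [id]
    omega
  have hsol : ∀ r : ℕ, Tendsto (fun q : ℕ => sol k l v (r + 2 * d * q)) atTop (𝓝 (c r)) := by
    intro r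
    have h1 := hlim.comp (hsub r)
    have h2 := h1.add_const (c r)
    rw [zero_add] at h2
    refine h2.congr fun q => ?_
    simp only [Function.comp_apply, pc]
    ring
  have hwsol : ∀ r : ℕ, Tendsto
      (fun q : ℕ => sol k l (fun i => w i * v i) (r + 2 * d * q)) atTop (𝓝 (w r * c r)) := by
    intro r
    have := (hsol r).const_mul (w r)
    refine this.congr fun q => ?_
    rw [sol_scale ha hb ea eb hw, pw]
  constructor
  · rintro ⟨_, h⟩ n
    exact tendsto_nhds_unique (hwsol n) (h.comp (hsub n))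
  · intro h
    refine ⟨fun i => mul_pos (hw i).1 (hv i), glue h2d fun r _ => ?_⟩
    rw [← h r]
    exact hwsol r

/-! ### Continuity of the limit -/

lemma sol_cont {k l : ℕ} {v : Fin (max k l + 1) → ℝ} (hv : ∀ i, 0 < v i) (n : ℕ) :
    ContinuousAt (fun v => sol k l v n) v := by
  induction n using Nat.strong_induction_on with
  | _ n ih =>
    by_cases h : n < max k l + 1
    · have e : (fun v => sol k l v n) = fun v => v ⟨n, h⟩ := by
        funext v; exact sol_lt v h
      rw [e]
      exact (continuous_apply _).continuousAt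
    · have e : (fun v => sol k l v n) = fun v =>
          1 / sol k l v (n - (k + 1)) + 1 / sol k l v (n - (l + 1)) := by
        funext v; exact sol_ge v (by omega) (by omega)
      rw [e]
      exact (continuousAt_const.div (ih _ (by omega)) (sol_pos hv _).ne').add
        (continuousAt_const.div (ih _ (by omega)) (sol_pos hv _).ne')

lemma c_step {c : ℕ → ℝ} {d : ℕ} (hc : ∀ n, 0 < c n ∧ c (n + d) * c n = 2) (r m : ℕ) :
    c (r + d * m) = if Even m then c r else 2 / c r := by
  induction m with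
  | zero => simp
  | succ m ih =>
    have h1 := (hc (r + d * m)).2
    have e : r + d * (m + 1) = r + d * m + d := by ring
    rw [e, eq_div_of_mul_eq (hc (r + d * m)).1.ne' h1, ih]
    have := (hc r).1
    by_cases h : Even m
    · simp [h, Nat.even_add_one]
    · simp only [h, Nat.even_add_one, not_false_eq_true, if_true, if_false]
      field_simp

lemma eventually_pos {ι : Type} [Finite ι] {v : ι → ℝ} (hv : ∀ i, 0 < v i) :
    ∀ᶠ v' in 𝓝 v, ∀ i, 0 < v' i :=
  eventually_all.2 fun i => (continuous_apply i).continuousAt.eventually (lt_mem_nhds (hv i))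

lemma limit_near {k l : ℕ} {v : Fin (max k l + 1) → ℝ} (hv : ∀ i, 0 < v i) {d a1 b1 : ℕ}
    (hd : 0 < d) (ha : k + 1 = a1 * d) (hb : l + 1 = b1 * d) (ea : ¬ Even a1) (eb : ¬ Even b1)
    {c : (Fin (max k l + 1) → ℝ) → ℕ → ℝ}
    (hc : ∀ v, (∀ i, 0 < v i) → ∀ n, 0 < c v n ∧ c v (n + d) * c v n = 2)
    (hlim : ∀ v, (∀ i, 0 < v i) → Tendsto (fun n => sol k l v n - c v n) atTop (𝓝 0))
    (r : ℕ) {p q : ℝ} (hp : 0 < p) (hpc : p < c v r) (hcq : c v r < q) :
    ∀ᶠ v' in 𝓝 v, p ≤ c v' r ∧ c v' r ≤ q := by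
  have hq : 0 < q := (hc v hv r).1.trans hcq
  have hcr := (hc v hv r).1
  have hsub : Tendsto (fun m : ℕ => r + d * m) atTop atTop := by
    refine tendsto_atTop_mono (fun q => ?_) tendsto_id
    have : 1 * q ≤ d * q := Nat.mul_le_mul_right q hd
    simp only [id]
    omega
  have hX : ∀ v, (∀ i, 0 < v i) → Tendsto (fun m => sol k l v (r + d * m) -
      if Even m then c v r else 2 / c v r) atTop (𝓝 0) := by
    intro v hv
    refine ((hlim v hv).comp hsub).congr fun m => ?_
    simp only [Function.comp_apply]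
    rw [c_step (hc v hv)]
  -- the window for `v`
  have hwin : ∃ N, ∀ m, N ≤ m →
      (Even m → p < sol k l v (r + d * m) ∧ sol k l v (r + d * m) < q) ∧
      (¬ Even m → 2 / q < sol k l v (r + d * m) ∧ sol k l v (r + d * m) < 2 / p) := by
    have h0 := tendsto_order.1 (hX v hv)
    have f1 : 2 / q < 2 / c v r := div_lt_div_of_pos_left (by norm_num) hcr hcq
    have f2 : 2 / c v r < 2 / p := div_lt_div_of_pos_left (by norm_num) hp hpc
    have := (((h0.1 (p - c v r) (by linarith)).and (h0.2 (q - c v r) (by linarith))).and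
      ((h0.1 (2 / q - 2 / c v r) (by linarith)).and (h0.2 (2 / p - 2 / c v r) (by linarith))))
    obtain ⟨N, hN⟩ := eventually_atTop.1 this
    refine ⟨N, fun m hm => ?_⟩
    obtain ⟨⟨h1, h2⟩, h3, h4⟩ := hN m hm
    by_cases hev : Even m
    · simp only [hev, if_true] at h1 h2
      exact ⟨fun _ => ⟨by linarith, by linarith⟩, fun h => absurd hev h⟩
    · simp only [hev, if_false] at h3 h4
      exact ⟨fun h => absurd h hev, fun _ => ⟨by linarith, by linarith⟩⟩
  obtain ⟨N, hN⟩ := hwin
  have hnear : ∀ᶠ v' in 𝓝 v, ∀ m ∈ Finset.Ico N (N + (a1 + b1)),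
      (Even m → p < sol k l v' (r + d * m) ∧ sol k l v' (r + d * m) < q) ∧
      (¬ Even m → 2 / q < sol k l v' (r + d * m) ∧ sol k l v' (r + d * m) < 2 / p) := by
    rw [Filter.eventually_all_finset]
    intro m hm
    have hc1 := sol_cont hv (r + d * m)
    obtain ⟨h1, h2⟩ := hN m (Finset.mem_Ico.1 hm).1
    by_cases hev : Even m
    · obtain ⟨h3, h4⟩ := h1 hev
      filter_upwards [hc1.eventually (lt_mem_nhds h3), hc1.eventually (gt_mem_nhds h4)]
        with v' g1 g2
      exact ⟨fun _ => ⟨g1, g2⟩, fun h => absurd hev h⟩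
    · obtain ⟨h3, h4⟩ := h2 hev
      filter_upwards [hc1.eventually (lt_mem_nhds h3), hc1.eventually (gt_mem_nhds h4)]
        with v' g1 g2
      exact ⟨fun h => absurd h hev, fun _ => ⟨g1, g2⟩⟩
  filter_upwards [hnear, eventually_pos hv] with v' hv1 hv2
  have G := sol_good hv2 ha hb r
  have hinv := G.invariant (fun n => sol_pos hv2 _) ea eb hp hq (N := N)
    (fun m h1 h2 => hv1 m (Finset.mem_Ico.2 ⟨h1, h2⟩))
  have hsub2 : Tendsto (fun m : ℕ => 2 * m) atTop atTop :=
    tendsto_atTop_mono (fun q => by simp only [id]; omega) tendsto_id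
  have hlim2 : Tendsto (fun m => sol k l v' (r + d * (2 * m))) atTop (𝓝 (c v' r)) := by
    have h1 := ((hX v' hv2).comp hsub2).add_const (c v' r)
    rw [zero_add] at h1
    refine h1.congr fun m => ?_
    simp only [Function.comp_apply, even_two_mul, if_true]
    ring
  constructor
  · refine ge_of_tendsto hlim2 ?_
    filter_upwards [eventually_ge_atTop N] with m hm
    exact ((hinv (2 * m) (by omega)).1 (even_two_mul m)).1.le
  · refine le_of_tendsto hlim2 ?_
    filter_upwards [eventually_ge_atTop N] with m hm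
    exact ((hinv (2 * m) (by omega)).1 (even_two_mul m)).2.le

lemma limit_cont {k l : ℕ} {v : Fin (max k l + 1) → ℝ} (hv : ∀ i, 0 < v i) {d a1 b1 : ℕ}
    (hd : 0 < d) (ha : k + 1 = a1 * d) (hb : l + 1 = b1 * d) (ea : ¬ Even a1) (eb : ¬ Even b1)
    {c : (Fin (max k l + 1) → ℝ) → ℕ → ℝ}
    (hc : ∀ v, (∀ i, 0 < v i) → ∀ n, 0 < c v n ∧ c v (n + d) * c v n = 2)
    (hlim : ∀ v, (∀ i, 0 < v i) → Tendsto (fun n => sol k l v n - c v n) atTop (𝓝 0))
    (r : ℕ) : ContinuousAt (fun v => c v r) v := by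
  have hcr := (hc v hv r).1
  refine tendsto_order.2 ⟨fun a' ha' => ?_, fun b' hb' => ?_⟩
  · obtain ⟨p, hp1, hp2⟩ := exists_between (max_lt ha' (half_lt_self hcr))
    have hp : 0 < p := lt_of_lt_of_le (half_pos hcr) ((le_max_right _ _).trans hp1.le)
    filter_upwards [limit_near hv hd ha hb ea eb hc hlim r hp hp2 (lt_add_one _)] with v' h
    exact lt_of_lt_of_le (lt_of_le_of_lt (le_max_left _ _) hp1) h.1
  · obtain ⟨q, hq1, hq2⟩ := exists_between hb'
    filter_upwards [limit_near hv hd ha hb ea eb hc hlim r (half_pos hcr) (half_lt_self hcr)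
      hq1] with v' h
    exact lt_of_le_of_lt h.2 hq2

/-! ### The basin is homeomorphic to a Euclidean space -/

lemma w_step {w : ℕ → ℝ} {d : ℕ} (hw : ∀ n, 0 < w n ∧ w (n + d) * w n = 1) (r m : ℕ) :
    w (r + d * m) = if Even m then w r else (w r)⁻¹ := by
  induction m with
  | zero => simp
  | succ m ih =>
    have h1 := (hw (r + d * m)).2
    have e : r + d * (m + 1) = r + d * m + d := by ring
    rw [e, eq_inv_of_mul_eq_one_left h1, ih]
    by_cases h : Even m
    · simp [h, Nat.even_add_one]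
    · simp [h, Nat.even_add_one]

/-- the first `d` coordinates are `1`, the logarithms of the others are the parameters -/
noncomputable def ext (k l d : ℕ) (u : Fin (max k l + 1 - d) → ℝ) : Fin (max k l + 1) → ℝ :=
  fun i => if h : i.1 < d then 1 else Real.exp (u ⟨i.1 - d, by omega⟩)

lemma ext_pos {k l d : ℕ} (u : Fin (max k l + 1 - d) → ℝ) (i : Fin (max k l + 1)) :
    0 < ext k l d u i := by
  unfold ext
  split_ifs
  · exact one_pos
  · exact Real.exp_pos _

lemma ext_cont (k l d : ℕ) : Continuous (ext k l d) := by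
  refine continuous_pi fun i => ?_
  by_cases h : i.1 < d
  · simp only [ext, h, dif_pos]
    exact continuous_const
  · simp only [ext, h, dif_neg, not_false_eq_true]
    exact Real.continuous_exp.comp (continuous_apply _)

/-- the multiplier that makes the first `d` coordinates equal to `1` -/
noncomputable def nrm {k l d : ℕ} (hd : 0 < d) (hdM : d ≤ max k l + 1)
    (v : Fin (max k l + 1) → ℝ) : ℕ → ℝ :=
  fun n => if Even (n / d) then (v ⟨n % d, (Nat.mod_lt n hd).trans_le hdM⟩)⁻¹
    else v ⟨n % d, (Nat.mod_lt n hd).trans_le hdM⟩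

lemma nrm_spec {k l d : ℕ} (hd : 0 < d) (hdM : d ≤ max k l + 1)
    {v : Fin (max k l + 1) → ℝ} (hv : ∀ i, 0 < v i) (n : ℕ) :
    0 < nrm hd hdM v n ∧ nrm hd hdM v (n + d) * nrm hd hdM v n = 1 := by
  have h1 := hv ⟨n % d, (Nat.mod_lt n hd).trans_le hdM⟩
  constructor
  · unfold nrm
    split_ifs
    · exact inv_pos.2 h1
    · exact h1
  · simp only [nrm, Nat.add_div_right n hd, Nat.add_mod_right]
    by_cases h : Even (n / d)
    · simp only [h, Nat.even_add_one, not_true_eq_false, if_true, if_false]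
      exact mul_inv_cancel₀ h1.ne'
    · simp only [h, Nat.even_add_one, not_false_eq_true, if_true, if_false]
      exact inv_mul_cancel₀ h1.ne'

lemma nrm_cont {k l d : ℕ} (hd : 0 < d) (hdM : d ≤ max k l + 1) (n : ℕ) :
    Continuous (fun v : basin k l => nrm hd hdM v.1 n) := by
  have h1 : Continuous (fun v : basin k l => v.1 ⟨n % d, (Nat.mod_lt n hd).trans_le hdM⟩) :=
    (continuous_apply _).comp continuous_subtype_val
  by_cases h : Even (n / d)
  · simp only [nrm, h, if_true]
    exact h1.inv₀ fun v => (v.2.1 _).ne'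
  · simp only [nrm, h, if_false]
    exact h1

lemma homeo {k l d a1 b1 : ℕ}
    (hd : 0 < d) (ha : k + 1 = a1 * d) (hb : l + 1 = b1 * d) (ea : ¬ Even a1) (eb : ¬ Even b1)
    {c : (Fin (max k l + 1) → ℝ) → ℕ → ℝ}
    (hc : ∀ v, (∀ i, 0 < v i) → ∀ n, 0 < c v n ∧ c v (n + d) * c v n = 2)
    (hlim : ∀ v, (∀ i, 0 < v i) → Tendsto (fun n => sol k l v n - c v n) atTop (𝓝 0)) :
    Nonempty (basin k l ≃ₜ (Fin (max k l + 1 - d) → ℝ)) := by
  have hdM : d ≤ max k l + 1 := by
    have : d ∣ k + 1 := ⟨a1, by rw [ha, mul_comm]⟩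
    have := Nat.le_of_dvd (Nat.succ_pos k) this
    omega
  have hs : (0 : ℝ) < √2 := by positivity
  have hss : √2 * √2 = (2 : ℝ) := Real.mul_self_sqrt (by norm_num)
  have hw0 : ∀ v, (∀ i, 0 < v i) → ∀ n, 0 < √2 / c v n ∧ √2 / c v (n + d) * (√2 / c v n) = 1 := by
    intro v hv n
    refine ⟨div_pos hs (hc v hv n).1, ?_⟩
    rw [div_mul_div_comm, hss, (hc v hv n).2, div_self two_ne_zero]
  have hmem : ∀ v, (∀ i, 0 < v i) →
      (fun i : Fin (max k l + 1) => √2 / c v i * v i) ∈ basin k l := by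
    intro v hv
    exact (scale_mem_iff hv hd ha hb ea eb (hw0 v hv) (hc v hv) (hlim v hv)).2
      fun n => div_mul_cancel₀ _ (hc v hv n).1.ne'
  let f : basin k l → (Fin (max k l + 1 - d) → ℝ) := fun v j =>
    Real.log (nrm hd hdM v.1 (j.1 + d) * v.1 ⟨j.1 + d, by omega⟩)
  let g : (Fin (max k l + 1 - d) → ℝ) → basin k l := fun u =>
    ⟨fun i => √2 / c (ext k l d u) i * ext k l d u i, hmem _ (ext_pos u)⟩
  have hext : ∀ v : basin k l, ext k l d (f v) =
      fun i : Fin (max k l + 1) => nrm hd hdM v.1 i * v.1 i := by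
    intro v
    funext i
    by_cases h : i.1 < d
    · simp only [ext, h, dif_pos, nrm]
      have e1 : i.1 / d = 0 := Nat.div_eq_of_lt h
      have e2 : i.1 % d = i.1 := Nat.mod_eq_of_lt h
      simp only [e1, e2, Even.zero, if_true]
      exact (inv_mul_cancel₀ (v.2.1 i).ne').symm
    · simp only [ext, h, dif_neg, not_false_eq_true, f]
      have e1 : i.1 - d + d = i.1 := by omega
      simp only [e1]
      exact Real.exp_log (mul_pos (nrm_spec hd hdM v.2.1 _).1 (v.2.1 i))
  refine ⟨⟨⟨f, g, ?_, ?_⟩, ?_, ?_⟩⟩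
  · intro v
    apply Subtype.ext
    funext i
    change √2 / c (ext k l d (f v)) i * ext k l d (f v) i = v.1 i
    have hn := nrm_spec hd hdM v.2.1
    have hw : ∀ n, 0 < (nrm hd hdM v.1 n)⁻¹ ∧
        (nrm hd hdM v.1 (n + d))⁻¹ * (nrm hd hdM v.1 n)⁻¹ = 1 := by
      intro n
      refine ⟨inv_pos.2 (hn n).1, ?_⟩
      rw [← mul_inv, (hn n).2, inv_one]
    have hvm : (fun i : Fin (max k l + 1) => (nrm hd hdM v.1 i)⁻¹ * ext k l d (f v) i) ∈
        basin k l := by
      have : (fun i : Fin (max k l + 1) => (nrm hd hdM v.1 i)⁻¹ * ext k l d (f v) i) = v.1 := by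
        funext i
        rw [hext v]
        exact inv_mul_cancel_left₀ (hn i).1.ne' _
      rw [this]
      exact v.2
    have h1 := (scale_mem_iff (ext_pos (f v)) hd ha hb ea eb hw (hc _ (ext_pos (f v)))
      (hlim _ (ext_pos (f v)))).1 hvm i
    have h2 : √2 / c (ext k l d (f v)) i = (nrm hd hdM v.1 i)⁻¹ := by
      rw [div_eq_iff (hc _ (ext_pos (f v)) i).1.ne']
      exact h1.symm
    rw [h2, hext v]
    exact inv_mul_cancel_left₀ (hn i).1.ne' _
  · intro u
    funext j
    have hw := hw0 _ (ext_pos (k := k) (l := l) u)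
    set w : ℕ → ℝ := fun n => √2 / c (ext k l d u) n with hwdef
    have hnrm : ∀ n, nrm hd hdM (g u).1 n = (w n)⁻¹ := by
      intro n
      have e0 : (g u).1 ⟨n % d, (Nat.mod_lt n hd).trans_le hdM⟩ = w (n % d) := by
        change √2 / c (ext k l d u) (n % d) *
          ext k l d u ⟨n % d, (Nat.mod_lt n hd).trans_le hdM⟩ = w (n % d)
        have : ext k l d u ⟨n % d, (Nat.mod_lt n hd).trans_le hdM⟩ = 1 := by
          simp only [ext, Nat.mod_lt n hd, dif_pos]
        rw [this, mul_one]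
      have e1 := w_step hw (n % d) (n / d)
      rw [Nat.mod_add_div] at e1
      simp only [nrm, e0]
      change w n = _ at e1
      rw [e1]
      by_cases h : Even (n / d)
      · simp only [h, if_true]
        rfl
      · simp only [h, if_false, inv_inv]
        rfl
    change Real.log (nrm hd hdM (g u).1 (j.1 + d) * (g u).1 ⟨j.1 + d, by omega⟩) = u j
    rw [hnrm]
    change Real.log ((w (j.1 + d))⁻¹ * (w (j.1 + d) * ext k l d u ⟨j.1 + d, by omega⟩)) = u j
    rw [inv_mul_cancel_left₀ (hw (j.1 + d)).1.ne']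
    have : ¬ (j.1 + d < d) := by omega
    simp only [ext, this, dif_neg, not_false_eq_true, Real.log_exp]
    congr 1
    apply Fin.ext
    simp
  · refine continuous_pi fun j => ?_
    refine Continuous.log ?_ ?_
    · exact (nrm_cont hd hdM _).mul ((continuous_apply _).comp continuous_subtype_val)
    · intro v
      exact (mul_pos (nrm_spec hd hdM v.2.1 _).1 (v.2.1 _)).ne'
  · refine Continuous.subtype_mk ?_ _
    refine continuous_pi fun i => ?_
    refine Continuous.mul ?_ ((continuous_apply i).comp (ext_cont k l d))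
    refine continuous_const.div ?_ fun u => (hc _ (ext_pos u) i).1.ne'
    rw [continuous_iff_continuousAt]
    intro u
    exact ContinuousAt.comp (f := ext k l d) (g := fun v => c v i)
      (limit_cont (ext_pos u) hd ha hb ea eb hc hlim i) (ext_cont k l d).continuousAt

/-- **The result.** -/
theorem result (k l : ℕ) :
    (basin k l = {v | ∀ i, 0 < v i} ↔ padicValNat 2 (k + 1) ≠ padicValNat 2 (l + 1)) ∧
    (padicValNat 2 (k + 1) = padicValNat 2 (l + 1) →
      (∃ c : (Fin (max k l + 1) → ℝ) → ℕ → ℝ, ∀ v, (∀ i, 0 < v i) →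
        (∀ n, 0 < c v n ∧ c v (n + Nat.gcd (k + 1) (l + 1)) * c v n = 2) ∧
        Tendsto (fun n => sol k l v n - c v n) atTop (𝓝 0) ∧
        ∀ n, ContinuousAt (fun v' => c v' n) v) ∧
      (∀ v : Fin (max k l + 1) → ℝ, (∀ i, 0 < v i) →
        ∃! w : ℕ → ℝ, (∀ n, 0 < w n ∧ w (n + Nat.gcd (k + 1) (l + 1)) * w n = 1) ∧
          (fun i : Fin (max k l + 1) => w i * v i) ∈ basin k l) ∧
      Nonempty (basin k l ≃ₜ (Fin (max k l + 1 - Nat.gcd (k + 1) (l + 1)) → ℝ))) := by
  obtain ⟨a1, b1, cop, ha, hb⟩ := Nat.exists_coprime (k + 1) (l + 1)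
  have hd : 0 < Nat.gcd (k + 1) (l + 1) := Nat.gcd_pos_of_pos_left _ (Nat.succ_pos k)
  set d := Nat.gcd (k + 1) (l + 1) with hdd
  have ha1 : 0 < a1 := by
    rcases Nat.eq_zero_or_pos a1 with h | h
    · rw [h] at ha; omega
    · exact h
  have hb1 : 0 < b1 := by
    rcases Nat.eq_zero_or_pos b1 with h | h
    · rw [h] at hb; omega
    · exact h
  have hpar : padicValNat 2 (k + 1) = padicValNat 2 (l + 1) ↔ (¬ Even a1 ∧ ¬ Even b1) := by
    rw [ha, hb]
    exact parity_iff hd ha1 hb1 cop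
  have main : padicValNat 2 (k + 1) = padicValNat 2 (l + 1) →
      (∃ c : (Fin (max k l + 1) → ℝ) → ℕ → ℝ, ∀ v, (∀ i, 0 < v i) →
        (∀ n, 0 < c v n ∧ c v (n + d) * c v n = 2) ∧
        Tendsto (fun n => sol k l v n - c v n) atTop (𝓝 0) ∧
        ∀ n, ContinuousAt (fun v' => c v' n) v) ∧
      (∀ v : Fin (max k l + 1) → ℝ, (∀ i, 0 < v i) →
        ∃! w : ℕ → ℝ, (∀ n, 0 < w n ∧ w (n + d) * w n = 1) ∧
          (fun i : Fin (max k l + 1) => w i * v i) ∈ basin k l) ∧
      Nonempty (basin k l ≃ₜ (Fin (max k l + 1 - d) → ℝ)) := by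
    intro h
    obtain ⟨ea, eb⟩ := hpar.1 h
    have hex : ∀ v : Fin (max k l + 1) → ℝ, ∃ c : ℕ → ℝ, (∀ i, 0 < v i) →
        (∀ n, 0 < c n ∧ c (n + d) * c n = 2) ∧
        Tendsto (fun n => sol k l v n - c n) atTop (𝓝 0) := by
      intro v
      by_cases hv : ∀ i, 0 < v i
      · obtain ⟨c, h1, h2⟩ := exists_limit hv hd ha hb cop ea eb
        exact ⟨c, fun _ => ⟨h1, h2⟩⟩
      · exact ⟨fun _ => 0, fun h => absurd h hv⟩
    choose c hcc using hex
    have hc := fun v hv => (hcc v hv).1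
    have hlim := fun v hv => (hcc v hv).2
    refine ⟨⟨c, fun v hv => ⟨hc v hv, hlim v hv,
      limit_cont hv hd ha hb ea eb hc hlim⟩⟩, fun v hv => ?_, homeo hd ha hb ea eb hc hlim⟩
    have hs : (0 : ℝ) < √2 := by positivity
    have hss : √2 * √2 = (2 : ℝ) := Real.mul_self_sqrt (by norm_num)
    have hw0 : ∀ n, 0 < √2 / c v n ∧ √2 / c v (n + d) * (√2 / c v n) = 1 := by
      intro n
      refine ⟨div_pos hs (hc v hv n).1, ?_⟩
      rw [div_mul_div_comm, hss, (hc v hv n).2, div_self two_ne_zero]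
    refine ⟨fun n => √2 / c v n, ⟨hw0, ?_⟩, ?_⟩
    · rw [scale_mem_iff hv hd ha hb ea eb hw0 (hc v hv) (hlim v hv)]
      intro n
      exact div_mul_cancel₀ _ (hc v hv n).1.ne'
    · rintro w ⟨hw, hmem⟩
      rw [scale_mem_iff hv hd ha hb ea eb hw (hc v hv) (hlim v hv)] at hmem
      funext n
      rw [eq_div_iff (hc v hv n).1.ne']
      exact hmem n
  refine ⟨⟨fun hB h => ?_, fun h => ?_⟩, main⟩
  · -- equal valuations: two scalings of the constant vector
    obtain ⟨-, huq, -⟩ := main h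
    obtain ⟨w, -, huniq⟩ := huq (fun _ => 1) (fun _ => one_pos)
    have h1 := huniq (fun _ => 1) ⟨fun n => by norm_num, by
      rw [hB]; intro i; norm_num⟩
    have hdiv : ∀ n, (n + d) / d = n / d + 1 := fun n => Nat.add_div_right n hd
    have h2 := huniq (fun n => if Even (n / d) then 2 else 1 / 2) ⟨fun n => by
        simp only [hdiv, Nat.even_add_one]
        by_cases h : Even (n / d)
        · simp [h]
        · simp [h], by
      rw [hB]
      intro i
      simp only
      split_ifs <;> norm_num⟩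
    have h3 := congrFun (h1.trans h2.symm) 0
    simp at h3
  · ext v
    constructor
    · exact fun hv => hv.1
    · intro hv
      exact ⟨hv, tendsto_of_ne hv hd ha hb cop (fun hp => h (hpar.2 hp))⟩

end Pool.Agent.Results.MP_247194_an.BasinsByValuation
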